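import Pool.Agent.H487.GP.Stm
import Pool.Agent.H487.GA.HN

set_option autoImplicit false

/-!
# `difk_proof : S_DIFK` (project GP of helper487)
The difference of the two cut-offs of the Poisson kernel is admissible.
-/

open Complex Filter Topology Set MeasureTheory

namespace Pool.Agent.H736.GP

open Pool.Agent.H487.GA Pool.Agent.H487.GP Pool.Agent.H487.GA.HNc

/-- the difference of the two cut-offs -/
noncomputable def Pd (x : ℝ) : ℝ := chi x - chi (2 * x)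

theorem Pd_cd : ContDiff ℝ 2 Pd :=
  chi_cd.sub (chi_cd.comp (contDiff_const.mul contDiff_id))

theorem Pd_out (x : ℝ) (hx : 1 ≤ |x|) : Pd x = 0 := by
  unfold Pd
  rw [chi_zero x hx, chi_zero (2 * x) (by rw [abs_mul, abs_two]; linarith), sub_self]

theorem Pd_in (x : ℝ) (hx : |x| ≤ 1 / 4) : Pd x = 0 := by
  unfold Pd
  rw [chi_one x (by linarith), chi_one (2 * x) (by rw [abs_mul, abs_two]; linarith), sub_self]

theorem D0_le4 {y X : ℝ} (hX : 1 / 4 ≤ |X|) : |D0 y X| ≤ 16 := by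
  have hX2 : 1 / 16 ≤ X ^ 2 := by
    rw [← sq_abs]; nlinarith
  rw [abs_of_nonneg (D0_nonneg _ _)]
  unfold D0
  rw [inv_le_comm₀ (by positivity) (by norm_num)]
  nlinarith [sq_nonneg y]

theorem D1_le4 {y X : ℝ} (hX : 1 / 4 ≤ |X|) : |D1 y X| ≤ 128 := by
  have hX2 : 1 / 16 ≤ X ^ 2 := by
    rw [← sq_abs]; nlinarith
  have h0 : 0 < X ^ 2 + y ^ 2 := by positivity
  unfold D1
  rw [abs_div, abs_of_pos (pow_pos h0 2), div_le_iff₀ (pow_pos h0 2), abs_neg, abs_mul, abs_two]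
  have h1 : |X| ≤ 4 * X ^ 2 := by
    rw [← sq_abs X]; nlinarith
  have h2 : 2 * |X| ≤ 8 * (X ^ 2 + y ^ 2) := by nlinarith [sq_nonneg y]
  have h3 : (X ^ 2 + y ^ 2) ≤ 16 * (X ^ 2 + y ^ 2) ^ 2 := by nlinarith [sq_nonneg y]
  linarith

theorem D2_le4 {y X : ℝ} (hX : 1 / 4 ≤ |X|) : |D2 y X| ≤ 1536 := by
  have hX2 : 1 / 16 ≤ X ^ 2 := by
    rw [← sq_abs]; nlinarith
  have h0 : 0 < X ^ 2 + y ^ 2 := by positivity
  unfold D2
  rw [abs_div, abs_of_pos (pow_pos h0 3), div_le_iff₀ (pow_pos h0 3)]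
  have h1 : |6 * X ^ 2 - 2 * y ^ 2| ≤ 6 * (X ^ 2 + y ^ 2) := by
    rw [abs_le]; constructor <;> nlinarith [sq_nonneg y, sq_nonneg X]
  have h3 : 1 ≤ 16 * (X ^ 2 + y ^ 2) := by nlinarith [sq_nonneg y]
  have h4 : 1 ≤ (16 * (X ^ 2 + y ^ 2)) ^ 2 := one_le_pow₀ h3
  calc |6 * X ^ 2 - 2 * y ^ 2| ≤ 6 * (X ^ 2 + y ^ 2) * 1 := by linarith
    _ ≤ 6 * (X ^ 2 + y ^ 2) * (16 * (X ^ 2 + y ^ 2)) ^ 2 :=
        mul_le_mul_of_nonneg_left h4 (by positivity)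
    _ = 1536 * (X ^ 2 + y ^ 2) ^ 3 := by ring

theorem mb {a b A B : ℝ} (h1 : |a| ≤ A) (h2 : |b| ≤ B) : |a * b| ≤ A * B := by
  rw [abs_mul]
  exact mul_le_mul h1 h2 (abs_nonneg _) ((abs_nonneg _).trans h1)

theorem mainD {M c y : ℝ} (hM : ∀ x, |Pd x| ≤ M ∧ |deriv Pd x| ≤ M ∧ |deriv (deriv Pd) x| ≤ M)
    (hc : 0 ≤ c) :
    ∀ x, |Fn Pd (fun _ => 1) c 0 y x| ≤ 1808 * (c * M) ∧
      |Fn1 Pd (fun _ => 1) c 0 y x| ≤ 1808 * (c * M) ∧
      |Fn2 Pd (fun _ => 1) c 0 y x| ≤ 1808 * (c * M) := by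
  intro x
  have hM0 : 0 ≤ M := (abs_nonneg _).trans (hM 0).1
  have hB : 0 ≤ 1808 * (c * M) := by positivity
  have w1 : deriv (fun _ : ℝ => (1 : ℝ)) = fun _ => 0 := by
    funext z
    simp
  have w2 : deriv (deriv (fun _ : ℝ => (1 : ℝ))) = fun _ => 0 := by
    rw [w1]
    funext z
    simp
  have E0 : Fn Pd (fun _ => 1) c 0 y x = c * (Pd x * D0 y x) := by
    unfold Fn
    rw [add_zero, mul_one]
  have E1 : Fn1 Pd (fun _ => 1) c 0 y x = c * (deriv Pd x * D0 y x + Pd x * D1 y x) := by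
    unfold Fn1
    rw [w1, add_zero, mul_one, mul_one, mul_zero, add_zero]
  have E2 : Fn2 Pd (fun _ => 1) c 0 y x =
      c * (deriv (deriv Pd) x * D0 y x + 2 * (deriv Pd x * D1 y x) + Pd x * D2 y x) := by
    unfold Fn2
    rw [w2, w1, add_zero]
    ring
  rw [E0, E1, E2]
  rcases lt_or_ge |x| (1 / 4) with h' | h'
  · obtain ⟨a0, a1, a2⟩ := zer_open (U := {x : ℝ | |x| < 1 / 4})
      (isOpen_lt continuous_abs continuous_const) (fun x hx => Pd_in x (le_of_lt hx)) x h'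
    rw [a0, a1, a2]
    simpa using hB
  obtain ⟨p0, p1, p2⟩ := hM x
  have fin : ∀ t : ℝ, |t| ≤ 1808 * M → |c * t| ≤ 1808 * (c * M) := by
    intro t ht
    rw [abs_mul, abs_of_nonneg hc]
    calc c * |t| ≤ c * (1808 * M) := mul_le_mul_of_nonneg_left ht hc
      _ = 1808 * (c * M) := by ring
  have d0 := D0_le4 (y := y) h'
  have d1 := D1_le4 (y := y) h'
  have d2 := D2_le4 (y := y) h'
  have t1 := mb p0 d0
  have t2 := mb p1 d0
  have t3 := mb p0 d1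
  have t4 := mb p2 d0
  have t5 := mb p1 d1
  have t6 := mb p0 d2
  refine ⟨fin _ ?_, fin _ ?_, fin _ ?_⟩
  · linarith
  · rw [abs_le] at t2 t3 ⊢
    constructor <;> linarith [t2.1, t2.2, t3.1, t3.2]
  · rw [abs_le] at t4 t5 t6 ⊢
    constructor <;> linarith [t4.1, t4.2, t5.1, t5.2, t6.1, t6.2]

theorem difk_proof : S_DIFK := by
  obtain ⟨M, hM0, hM⟩ := bdd Pd_cd Pd_out
  have hW : ContDiff ℝ 2 (fun _ : ℝ => (1 : ℝ)) := contDiff_const
  obtain ⟨c, hc⟩ : ∃ c : ℝ, c = 1 / (57856 * (M + 1)) := ⟨_, rfl⟩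
  have hc0 : 0 < c := by
    rw [hc]
    positivity
  have hcB : 1808 * (c * (M + 1)) = 1 / 32 := by
    rw [hc]
    field_simp
    norm_num
  refine ⟨c, 1, hc0, one_pos, ?_⟩
  intro y L hy _ hL
  have hF : (fun x => c / y ^ 2 * (Fy y x - Fh y x)) = Fn Pd (fun _ => 1) c 0 y := by
    funext x
    unfold Fn Fy Fh Pd D0
    have h1 : y ≠ 0 := hy.ne'
    have h2 : x ^ 2 + y ^ 2 ≠ 0 := by positivity
    rw [add_zero]
    field_simp
  rw [hF]
  have hb := mainD (M := M + 1) (c := c) (y := y)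
    (fun x => ⟨by linarith [(hM x).1], by linarith [(hM x).2.1], by linarith [(hM x).2.2]⟩) hc0.le
  rw [hcB] at hb
  have e1 : deriv (Fn Pd (fun _ => 1) c 0 y) = Fn1 Pd (fun _ => 1) c 0 y :=
    funext fun x => (Fn_der Pd_cd hW hy x).deriv
  have e2 : deriv (Fn1 Pd (fun _ => 1) c 0 y) = Fn2 Pd (fun _ => 1) c 0 y :=
    funext fun x => (Fn1_der Pd_cd hW hy x).deriv
  refine adm_of (B := 1 / 32) (by norm_num) le_rfl hL ⟨Fn_cd Pd_cd hW hy, ?_⟩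
    (fun x => (hb x).1) ?_ ?_
  · intro x hx
    unfold Fn
    rw [Pd_out x hx]
    ring
  · intro x
    rw [e1]
    exact (hb x).2.1
  · intro x
    rw [e1, e2]
    exact (hb x).2.2

end Pool.Agent.H736.GP
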